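import Pool.Agent.Helper83.HL.St

/-!
Project HL (MP_8be7de_nt): module G.
-/

set_option autoImplicit false

namespace Pool.Agent.Helper60.HL

open Pool.Agent.Helper83.HL
open Classical

/-- the primes up to `m` -/
def Pm (m : ℕ) : Finset ℕ := (Finset.range (m + 1)).filter Nat.Prime

theorem card_Pm (m : ℕ) : (Pm m).card = Nat.primeCounting m := by
  unfold Pm Nat.primeCounting Nat.primeCounting'
  rw [Nat.count_eq_card_filter_range]

/-- the multiset of the values -/
def ms {m k : ℕ} (s : Sym {p // p ∈ Pm m} k) : Multiset ℕ :=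
  (s : Multiset {p // p ∈ Pm m}).map Subtype.val

theorem mem_ms {m k : ℕ} (s : Sym {p // p ∈ Pm m} k) {p : ℕ} (hp : p ∈ ms s) : p.Prime ∧ p ≤ m := by
  unfold ms at hp
  rw [Multiset.mem_map] at hp
  obtain ⟨a, _, rfl⟩ := hp
  have ha := a.2
  unfold Pm at ha
  rw [Finset.mem_filter, Finset.mem_range] at ha
  exact ⟨ha.2, by omega⟩

theorem ms_inj {m k : ℕ} (s t : Sym {p // p ∈ Pm m} k) (h : (ms s).prod = (ms t).prod) : s = t := by
  have h1 := UniqueFactorizationMonoid.normalizedFactors_prod_of_prime
    (fun p hp => (mem_ms s hp).1.prime)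
  have h2 := UniqueFactorizationMonoid.normalizedFactors_prod_of_prime
    (fun p hp => (mem_ms t hp).1.prime)
  have h3 : ms s = ms t := by rw [← h1, ← h2, h]
  exact Subtype.ext (Multiset.map_injective Subtype.val_injective h3)

theorem mG : StG := by
  intro m k N hk hN
  have hcard : Nat.multichoose (Nat.primeCounting m) k ≤ Psi N m := by
    have h1 : Fintype.card (Sym {p // p ∈ Pm m} k) = Nat.multichoose (Nat.primeCounting m) k := by
      rw [Sym.card_sym_eq_multichoose, Fintype.card_coe, card_Pm]
    rw [← h1]
    unfold Psi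
    rw [← Finset.card_univ]
    apply Finset.card_le_card_of_injOn (fun s => (ms s).prod)
    · intro s _
      have hpos : 0 < (ms s).prod := by
        apply Nat.pos_of_ne_zero
        intro h0
        rw [Multiset.prod_eq_zero_iff] at h0
        exact Nat.not_prime_zero (mem_ms s h0).1
      have hle : (ms s).prod ≤ m ^ k := by
        have h2 := Multiset.prod_le_pow_card (ms s) m (fun p hp => (mem_ms s hp).2)
        have h3 : Multiset.card (ms s) = k := by
          unfold ms
          rw [Multiset.card_map]
          exact s.2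
        rwa [h3] at h2
      simp only [Finset.coe_filter, Set.mem_ofPred_eq, Finset.mem_Icc]
      refine ⟨⟨hpos, hle.trans hN⟩, fun p hp hd => ?_⟩
      obtain ⟨a, ha, hpa⟩ := Prime.exists_mem_multiset_dvd hp.prime hd
      have h4 := mem_ms s ha
      have h5 : p = a := (Nat.prime_dvd_prime_iff_eq hp h4.1).1 hpa
      rw [h5]
      exact h4.2
    · intro s _ t _ h
      exact ms_inj s t h
  have hpow : (Nat.primeCounting m) ^ k ≤ k ^ k * Psi N m := by
    have h1 := Nat.pow_sub_le_descFactorial (Nat.primeCounting m + k - 1) k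
    have h2 : Nat.primeCounting m + k - 1 + 1 - k = Nat.primeCounting m := by omega
    rw [h2, Nat.descFactorial_eq_factorial_mul_choose, ← Nat.multichoose_eq] at h1
    exact h1.trans (Nat.mul_le_mul (Nat.factorial_le_pow k) hcard)
  have hk' : (0 : ℝ) < (k : ℝ) ^ k := by
    have : (0 : ℝ) < k := by exact_mod_cast hk
    positivity
  rw [div_pow, div_le_iff₀ hk', mul_comm]
  exact_mod_cast hpow

end Pool.Agent.Helper60.HL
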